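import Mathlib
import Pool.Agent.H958.RL.Stm

/-!
# Project RL: UGREEDY, few monotone functions reverse all pairs
-/

set_option autoImplicit false

namespace Pool.Agent.H88.RL.Ugreedy

open Finset
open scoped Classical
open Pool.Agent.W830.RD (Om gle Pr Rlz)
open Pool.Agent.H958.RO (Rev dimG)

/-- Permutations with `y` minimal on `S`. -/
noncomputable def Am {n : ℕ} (S : Finset (Fin n)) (y : Fin n) : Finset (Equiv.Perm (Fin n)) :=
  univ.filter (fun σ => ∀ u ∈ S, σ y ≤ σ u)

theorem Am_card {n : ℕ} (S : Finset (Fin n)) (y z : Fin n) (hy : y ∈ S) (hz : z ∈ S) :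
    (Am S z).card ≤ (Am S y).card := by
  apply Finset.card_le_card_of_injOn (fun σ => σ * Equiv.swap y z)
  · intro σ hσ
    simp only [Am, coe_filter, mem_univ, true_and, Set.mem_setOf_eq] at hσ ⊢
    intro u hu
    simp only [Equiv.Perm.coe_mul, Function.comp_apply, Equiv.swap_apply_left]
    apply hσ
    by_cases h1 : u = y
    · subst h1; simpa using hz
    · by_cases h2 : u = z
      · subst h2; simpa using hy
      · rw [Equiv.swap_apply_of_ne_of_ne h1 h2]; exact hu
  · intro σ _ τ _ h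
    exact mul_right_cancel h

theorem fact_le {n : ℕ} (S : Finset (Fin n)) (y : Fin n) (hy : y ∈ S) :
    n.factorial ≤ S.card * (Am S y).card := by
  have h1 : (univ : Finset (Equiv.Perm (Fin n))) ⊆ S.biUnion (fun z => Am S z) := by
    intro σ _
    obtain ⟨z, hz, hm⟩ := Finset.exists_min_image S (fun u => σ u) ⟨y, hy⟩
    rw [mem_biUnion]
    refine ⟨z, hz, ?_⟩
    simp only [Am, mem_filter, mem_univ, true_and]
    exact hm
  calc n.factorial = (univ : Finset (Equiv.Perm (Fin n))).card := by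
        rw [Finset.card_univ, Fintype.card_perm, Fintype.card_fin]
    _ ≤ (S.biUnion (fun z => Am S z)).card := Finset.card_le_card h1
    _ ≤ ∑ z ∈ S, (Am S z).card := Finset.card_biUnion_le
    _ ≤ ∑ z ∈ S, (Am S y).card := Finset.sum_le_sum (fun z hz => Am_card S y z hy hz)
    _ = S.card * (Am S y).card := by rw [Finset.sum_const, smul_eq_mul]

section
variable {n : ℕ} (le : Fin n → Fin n → Prop)

/-- the up-set -/
noncomputable def U (x : Fin n) : Finset (Fin n) := univ.filter (fun u => le x u)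

/-- good permutations for a pair -/
noncomputable def Gd (q : Fin n × Fin n) (σ : Equiv.Perm (Fin n)) : Prop :=
  ∀ u ∈ U le q.1, σ q.2 < σ u

theorem good_count (K : ℕ) (hK : ∀ x, (U le x).card ≤ K) (q : Fin n × Fin n)
    (hq : ¬ le q.1 q.2) :
    n.factorial ≤ (K + 1) * (univ.filter (fun σ => Gd le q σ)).card := by
  have hn : q.2 ∉ U le q.1 := by simpa [U] using hq
  have h := fact_le (insert q.2 (U le q.1)) q.2 (mem_insert_self _ _)
  have h2 : (insert q.2 (U le q.1)).card ≤ K + 1 := by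
    rw [Finset.card_insert_of_notMem hn]
    have := hK q.1
    omega
  refine h.trans ?_
  refine Nat.mul_le_mul h2 (Finset.card_le_card ?_)
  intro σ hσ
  simp only [Am, mem_filter, mem_univ, true_and] at hσ ⊢
  intro u hu
  refine lt_of_le_of_ne (hσ u (mem_insert_of_mem hu)) ?_
  intro he
  have := σ.injective he
  rw [this] at hn
  exact hn hu

theorem exists_perm (K : ℕ) (hK : ∀ x, (U le x).card ≤ K) (P : Finset (Fin n × Fin n))
    (hP : ∀ q ∈ P, ¬ le q.1 q.2) :
    ∃ σ : Equiv.Perm (Fin n), P.card ≤ (K + 1) * (P.filter (fun q => Gd le q σ)).card := by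
  by_contra hcon
  push Not at hcon
  have h1 : (K + 1) * ∑ σ : Equiv.Perm (Fin n), (P.filter (fun q => Gd le q σ)).card <
      n.factorial * P.card := by
    rw [Finset.mul_sum]
    calc ∑ σ : Equiv.Perm (Fin n), (K + 1) * (P.filter (fun q => Gd le q σ)).card
        < ∑ σ : Equiv.Perm (Fin n), P.card :=
          Finset.sum_lt_sum_of_nonempty univ_nonempty (fun σ _ => hcon σ)
      _ = n.factorial * P.card := by
          rw [Finset.sum_const, smul_eq_mul, Finset.card_univ, Fintype.card_perm,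
            Fintype.card_fin]
  have h2 : ∑ σ : Equiv.Perm (Fin n), (P.filter (fun q => Gd le q σ)).card =
      ∑ q ∈ P, (univ.filter (fun σ => Gd le q σ)).card := by
    simp only [Finset.card_filter]
    rw [Finset.sum_comm]
  rw [h2, Finset.mul_sum] at h1
  have h3 : ∑ q ∈ P, n.factorial ≤ ∑ q ∈ P, (K + 1) * (univ.filter (fun σ => Gd le q σ)).card :=
    Finset.sum_le_sum (fun q hq => good_count le K hK q (hP q hq))
  rw [Finset.sum_const, smul_eq_mul] at h3
  rw [mul_comm] at h1
  have : n.factorial * P.card = P.card * n.factorial := mul_comm _ _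
  omega

theorem exists_fun (hr : ∀ x, le x x) (ht : ∀ x y z, le x y → le y z → le x z)
    (K : ℕ) (hK : ∀ x, (U le x).card ≤ K) (P : Finset (Fin n × Fin n))
    (hP : ∀ q ∈ P, ¬ le q.1 q.2) :
    ∃ f : Fin n → ℕ, (∀ x y, le x y → f x ≤ f y) ∧
      P.card ≤ (K + 1) * (P.filter (fun q => f q.2 < f q.1)).card := by
  obtain ⟨σ, hσ⟩ := exists_perm le K hK P hP
  have hne : ∀ x, (U le x).Nonempty := fun x => ⟨x, by simp [U, hr x]⟩
  refine ⟨fun z => (U le z).inf' (hne z) (fun u => (σ u : ℕ)), ?_, ?_⟩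
  · intro x y hxy
    apply Finset.inf'_mono
    intro u hu
    simp only [U, mem_filter, mem_univ, true_and] at hu ⊢
    exact ht _ _ _ hxy hu
  · refine hσ.trans (Nat.mul_le_mul le_rfl (Finset.card_le_card ?_))
    intro q hq
    rw [mem_filter] at hq ⊢
    refine ⟨hq.1, ?_⟩
    have h1 : (U le q.2).inf' (hne q.2) (fun u => (σ u : ℕ)) ≤ (σ q.2 : ℕ) :=
      Finset.inf'_le (fun u => (σ u : ℕ)) (by simp [U, hr q.2])
    refine lt_of_le_of_lt h1 ?_
    rw [Finset.lt_inf'_iff]
    intro u hu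
    exact hq.2 u hu

theorem iterate (hr : ∀ x, le x x) (ht : ∀ x y z, le x y → le y z → le x z)
    (K : ℕ) (hK : ∀ x, (U le x).card ≤ K) (k : ℕ) :
    ∃ f : Fin k → Fin n → ℕ, (∀ i x y, le x y → f i x ≤ f i y) ∧
      (((univ.filter (fun q : Fin n × Fin n => ¬ le q.1 q.2 ∧
        ∀ i, ¬ f i q.2 < f i q.1)).card : ℝ)) ≤ (n : ℝ) ^ 2 * (1 - 1 / ((K : ℝ) + 1)) ^ k := by
  induction k with
  | zero =>
    refine ⟨fun i => i.elim0, fun i => i.elim0, ?_⟩
    rw [pow_zero, mul_one]
    have h : ((univ.filter (fun q : Fin n × Fin n => ¬ le q.1 q.2 ∧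
        ∀ i : Fin 0, ¬ (i.elim0 : Fin n → ℕ) q.2 < (i.elim0 : Fin n → ℕ) q.1)).card) ≤ n ^ 2 := by
      refine (Finset.card_le_univ _).trans ?_
      rw [Fintype.card_prod, Fintype.card_fin, sq]
    exact_mod_cast h
  | succ k ih =>
    obtain ⟨f, hf, hc⟩ := ih
    set R := (univ.filter (fun q : Fin n × Fin n => ¬ le q.1 q.2 ∧
        ∀ i, ¬ f i q.2 < f i q.1)) with hR
    obtain ⟨g, hg, hgc⟩ := exists_fun le hr ht K hK R (fun q hq => by
      rw [hR, mem_filter] at hq; exact hq.2.1)
    refine ⟨Fin.cons g f, ?_, ?_⟩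
    · intro i
      refine Fin.cases ?_ ?_ i
      · simpa using hg
      · intro j; simpa using hf j
    · have hsub : (univ.filter (fun q : Fin n × Fin n => ¬ le q.1 q.2 ∧
          ∀ i : Fin (k + 1), ¬ (Fin.cons g f : Fin (k + 1) → Fin n → ℕ) i q.2 <
            (Fin.cons g f : Fin (k + 1) → Fin n → ℕ) i q.1)) =
          R.filter (fun q => ¬ g q.2 < g q.1) := by
        ext q
        simp only [hR, mem_filter, mem_univ, true_and, Fin.forall_fin_succ, Fin.cons_zero,
          Fin.cons_succ]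
        tauto
      rw [hsub]
      have h1 : (R.filter (fun q => g q.2 < g q.1)).card +
          (R.filter (fun q => ¬ g q.2 < g q.1)).card = R.card :=
        Finset.card_filter_add_card_filter_not _
      have h1' : ((R.filter (fun q => g q.2 < g q.1)).card : ℝ) +
          ((R.filter (fun q => ¬ g q.2 < g q.1)).card : ℝ) = (R.card : ℝ) := by
        exact_mod_cast h1
      have h2 : (R.card : ℝ) ≤ ((K : ℝ) + 1) * ((R.filter (fun q => g q.2 < g q.1)).card : ℝ) := by
        exact_mod_cast hgc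
      have hK1 : (0 : ℝ) < (K : ℝ) + 1 := by positivity
      have h3 : (R.card : ℝ) / ((K : ℝ) + 1) ≤
          ((R.filter (fun q => g q.2 < g q.1)).card : ℝ) := by
        rw [div_le_iff₀ hK1]; linarith
      have h4 : ((R.filter (fun q => ¬ g q.2 < g q.1)).card : ℝ) ≤
          (R.card : ℝ) * (1 - 1 / ((K : ℝ) + 1)) := by
        rw [mul_sub, mul_one, mul_one_div]; linarith
      refine h4.trans ?_
      have h5 : (0 : ℝ) ≤ 1 - 1 / ((K : ℝ) + 1) := by
        rw [sub_nonneg, div_le_one hK1]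
        have : (0 : ℝ) ≤ K := by positivity
        linarith
      calc (R.card : ℝ) * (1 - 1 / ((K : ℝ) + 1))
          ≤ ((n : ℝ) ^ 2 * (1 - 1 / ((K : ℝ) + 1)) ^ k) * (1 - 1 / ((K : ℝ) + 1)) :=
            mul_le_mul_of_nonneg_right hc h5
        _ = (n : ℝ) ^ 2 * (1 - 1 / ((K : ℝ) + 1)) ^ (k + 1) := by
            rw [mul_assoc]; congr 1

end

theorem main : Pool.Agent.H958.RL.S_UGREEDY := by
  intro n K k E _ hK hk
  obtain ⟨f, hf, hc⟩ := iterate (gle E) (fun x => Relation.ReflTransGen.refl)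
    (fun x y z h1 h2 => Relation.ReflTransGen.trans h1 h2) K (fun x => by
      refine le_trans (le_of_eq ?_) (hK x)
      rfl) k
  refine ⟨f, hf, ?_⟩
  rcases Nat.eq_zero_or_pos n with hn | hn
  · subst hn
    intro x
    exact x.elim0
  have hn' : (0 : ℝ) < (n : ℝ) := by exact_mod_cast hn
  have hK1 : (0 : ℝ) < (K : ℝ) + 1 := by positivity
  have h0 : (0 : ℝ) ≤ 1 - 1 / ((K : ℝ) + 1) := by
    rw [sub_nonneg, div_le_one hK1]
    have : (0 : ℝ) ≤ K := by positivity
    linarith
  have h1 : (1 - 1 / ((K : ℝ) + 1)) ≤ Real.exp (-(1 / ((K : ℝ) + 1))) := by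
    have := Real.add_one_le_exp (-(1 / ((K : ℝ) + 1)))
    linarith
  have h2 : (n : ℝ) ^ 2 * (1 - 1 / ((K : ℝ) + 1)) ^ k < 1 := by
    calc (n : ℝ) ^ 2 * (1 - 1 / ((K : ℝ) + 1)) ^ k
        ≤ (n : ℝ) ^ 2 * (Real.exp (-(1 / ((K : ℝ) + 1)))) ^ k := by
          apply mul_le_mul_of_nonneg_left (pow_le_pow_left₀ h0 h1 k) (by positivity)
      _ = Real.exp (2 * Real.log n) * Real.exp (-(k / ((K : ℝ) + 1))) := by
          rw [← Real.exp_nat_mul]
          congr 1
          · rw [mul_comm, Real.exp_mul, Real.exp_log hn']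
            norm_num
          · congr 1
            ring
      _ = Real.exp (2 * Real.log n - k / ((K : ℝ) + 1)) := by
          rw [← Real.exp_add]; congr 1
      _ < 1 := by
          rw [Real.exp_lt_one_iff, sub_neg, lt_div_iff₀ hK1]
          linarith
  have h3 := lt_of_le_of_lt hc h2
  have h4 : (univ.filter (fun q : Fin n × Fin n => ¬ gle E q.1 q.2 ∧
        ∀ i, ¬ f i q.2 < f i q.1)).card = 0 := by
    have : ((univ.filter (fun q : Fin n × Fin n => ¬ gle E q.1 q.2 ∧
        ∀ i, ¬ f i q.2 < f i q.1)).card) < 1 := by exact_mod_cast h3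
    omega
  rw [Finset.card_eq_zero, Finset.filter_eq_empty_iff] at h4
  intro x y hxy
  have h5 := h4 (mem_univ (x, y))
  by_contra hcon
  push Not at hcon
  apply h5
  refine ⟨hxy, fun i => ?_⟩
  exact not_lt.mpr (hcon i)

end Pool.Agent.H88.RL.Ugreedy
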